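import Mathlib

set_option autoImplicit false
set_option maxRecDepth 100000

/-!
# Balanced ballots for three offices: `B(5,6,7) ≤ 13 < 15 = 6·3 - 3`
-/

namespace Pool.Agent.Results.MP_14f59b_co.ThirteenBallots

/-- A ballot for `k` offices, office `j` having the set of candidates `Fin (m j)`: for each office
a linear ordering of the candidates, i.e. a bijection from positions onto candidates. -/
abbrev Ballot {k : ℕ} (m : Fin k → ℕ) : Type := ∀ j : Fin k, Equiv.Perm (Fin (m j))

/-- `S` (the set of distinct ballots) with the positive multiplicities `w` is a balanced ballot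
system: for every office `j` and position `p`, all candidates `c` of the office occur in position
`p` equally often. -/
def Balanced {k : ℕ} (m : Fin k → ℕ) (S : Finset (Ballot m)) (w : Ballot m → ℕ) : Prop :=
  S.Nonempty ∧ (∀ b ∈ S, 0 < w b) ∧
    ∀ (j : Fin k) (p c c' : Fin (m j)),
      ∑ b ∈ S.filter (fun b => b j p = c), w b = ∑ b ∈ S.filter (fun b => b j p = c'), w b

/-- The least possible number of distinct ballots. -/
noncomputable def B {k : ℕ} (m : Fin k → ℕ) : ℕ :=
  sInf {n : ℕ | ∃ (S : Finset (Ballot m)) (w : Ballot m → ℕ), Balanced m S w ∧ S.card = n}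

/-- The weights of the 13 ballots (total 210). -/
def wt : Fin 13 → ℕ := ![30, 27, 25, 22, 20, 18, 17, 13, 12, 10, 8, 5, 3]

/-- The cyclic shifts of the 13 ballots in the three offices. -/
def sh5 : Fin 13 → Fin 5 := ![0, 3, 1, 2, 2, 4, 1, 4, 0, 3, 4, 3, 4]

/-- See `sh5`. -/
def sh6 : Fin 13 → Fin 6 := ![0, 1, 2, 3, 4, 5, 5, 3, 4, 2, 1, 0, 4]

/-- See `sh5`. -/
def sh7 : Fin 13 → Fin 7 := ![0, 1, 2, 3, 4, 5, 6, 6, 5, 4, 3, 2, 1]

/-- The three offices of the example have 5, 6 and 7 candidates. -/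
def m₀ : Fin 3 → ℕ := ![5, 6, 7]

/-- The shift of ballot `i` in office `j`. -/
def sh (i : Fin 13) : ∀ j : Fin 3, Fin (m₀ j)
  | 0 => sh5 i
  | 1 => sh6 i
  | 2 => sh7 i

instance (j : Fin 3) : NeZero (m₀ j) := ⟨by revert j; decide⟩

/-- The 13 ballots: cyclic shifts of the identity. -/
def bal (i : Fin 13) : Ballot m₀ := fun j => Equiv.addRight (sh i j)

lemma bal_apply (i : Fin 13) (j : Fin 3) (p : Fin (m₀ j)) : bal i j p = p + sh i j := rfl

lemma sh_inj : ∀ i i' : Fin 13, (∀ j, sh i j = sh i' j) → i = i' := by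
  decide +kernel

lemma bal_inj : Function.Injective bal := by
  intro i i' h
  apply sh_inj
  intro j
  have h1 := congrArg (fun b : Ballot m₀ => b j 0) h
  simp only [bal_apply, zero_add] at h1
  exact h1

/-- The set of ballots. -/
def S₀ : Finset (Ballot m₀) := Finset.univ.image bal

/-- The multiplicities. -/
def w₀ (b : Ballot m₀) : ℕ := ∑ i : Fin 13, if bal i = b then wt i else 0

lemma w₀_bal (i : Fin 13) : w₀ (bal i) = wt i := by
  unfold w₀
  rw [Finset.sum_eq_single i]
  · simp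
  · intro j _ hj
    rw [if_neg (fun e => hj (bal_inj e))]
  · intro h
    exact absurd (Finset.mem_univ i) h

lemma sums : ∀ (j : Fin 3) (p c : Fin (m₀ j)),
    (∑ i : Fin 13, if p + sh i j = c then wt i else 0) = 210 / m₀ j := by
  decide +kernel

lemma S₀_sum (j : Fin 3) (p c : Fin (m₀ j)) :
    ∑ b ∈ S₀.filter (fun b => b j p = c), w₀ b = 210 / m₀ j := by
  rw [Finset.sum_filter, S₀, Finset.sum_image (fun i _ i' _ h => bal_inj h), ← sums j p c]
  apply Finset.sum_congr rfl
  intro i _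
  rw [bal_apply, w₀_bal]

lemma S₀_balanced : Balanced m₀ S₀ w₀ := by
  refine ⟨⟨bal 0, Finset.mem_image_of_mem _ (Finset.mem_univ _)⟩, ?_, ?_⟩
  · intro b hb
    obtain ⟨i, _, rfl⟩ := Finset.mem_image.mp hb
    rw [w₀_bal]
    revert i
    decide
  · intro j p c c'
    rw [S₀_sum, S₀_sum]

lemma S₀_card : S₀.card = 13 := by
  rw [S₀, Finset.card_image_of_injective _ bal_inj]
  rfl

/-- There is a balanced ballot system for offices with 5, 6, 7 candidates using only 13 distinct
ballots. Hence it is false that `B(2n-1, 2n, 2n+1) ≥ 6n-3` for every positive integer `n`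
(it fails for `n = 3`, where the bound would be 15). -/
theorem result :
    B ![5, 6, 7] ≤ 13 ∧ ¬ ∀ n : ℕ, 1 ≤ n → 6 * n - 3 ≤ B ![2 * n - 1, 2 * n, 2 * n + 1] := by
  have h : B ![5, 6, 7] ≤ 13 := Nat.sInf_le (by
    show (13 : ℕ) ∈ {n : ℕ | ∃ (S : Finset (Ballot m₀)) (w : Ballot m₀ → ℕ),
      Balanced m₀ S w ∧ S.card = n}
    exact ⟨S₀, w₀, S₀_balanced, S₀_card⟩)
  refine ⟨h, fun hall => ?_⟩
  have h3 := hall 3 (by norm_num)
  have e : (![2 * 3 - 1, 2 * 3, 2 * 3 + 1] : Fin 3 → ℕ) = ![5, 6, 7] := by norm_num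
  rw [e] at h3
  omega

end Pool.Agent.Results.MP_14f59b_co.ThirteenBallots
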